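import Pool.Agent.N912.LB.Stm
import Pool.Agent.N222.RC.Rc4

/-!
# LB8: functions of the ideals far from the ray class characters have mean value `0` on every
residue class of the ring of integers of an imaginary quadratic field (for helper912)

Port of `Pool/Agent/N222/RC/Rc4.lean` (helper222), with `b^Ω(N 𝔞)` replaced by `F(𝔞)`.
-/

set_option autoImplicit false

open NumberField Filter Finset

namespace Pool.Agent.N527.LB

open Pool.Agent.N912.RC (IX CF S_RC3)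
open Pool.Agent.Y773.G (IsModChar)
open Pool.Agent.N912.LB (CMI FarI S_HM S_HD)
open Pool.Agent.N222.RC

/-- the values on nonzero ideals have absolute value `1` -/
lemma cmi_norm {R : Type} [CommRing R] {N : ℕ} {F : Ideal R → ℂ} (hF : CMI N F) {I : Ideal R}
    (hI : I ≠ ⊥) : ‖F I‖ = 1 :=
  Complex.norm_eq_one_of_pow_eq_one (hF.pow I hI) (by have := hF.pos; omega)

section

variable {K : Type} [Field K] [NumberField K]

/-- the sum over the class of `ρ`, `ρ` not divisible by `m` -/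
lemma main_b [IsTotallyComplex K] [Finite (𝓞 K)ˣ] (h2 : S_HM) (h3 : S_RC3)
    (hfr : Module.finrank ℚ K = 2) {N : ℕ} {F : Ideal (𝓞 K) → ℂ} (hCM : CMI N F) (hfar : FarI K F)
    {m : ℕ} (hm : 1 ≤ m) {ρ : 𝓞 K} (hρ : ¬ (m : 𝓞 K) ∣ ρ) (ε : ℝ) (hε : 0 < ε) :
    ∃ X₀ : ℝ, ∀ X ≥ X₀, ∀ A : Finset (𝓞 K), (∀ z, z ∈ A ↔ z ∈ ZX K X ∧ (m : 𝓞 K) ∣ z - ρ) →
      ‖∑ z ∈ A, F (Ideal.span {z})‖ ≤ ε * X := by
  classical
  have hm0 : (m : 𝓞 K) ≠ 0 := by exact_mod_cast (by omega : m ≠ 0)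
  set 𝔡 : Ideal (𝓞 K) := Ideal.span {ρ} ⊔ Ideal.span {(m : 𝓞 K)} with h𝔡
  have hmd : Ideal.span {(m : 𝓞 K)} ≤ 𝔡 := le_sup_right
  have hmbot : Ideal.span {(m : 𝓞 K)} ≠ ⊥ := by
    rw [Ne, Ideal.span_singleton_eq_bot]; exact hm0
  have h𝔡0 : 𝔡 ≠ ⊥ := by
    intro h
    rw [h] at hmd
    exact hmbot (le_bot_iff.1 hmd)
  obtain ⟨𝔪, h𝔪⟩ := Ideal.dvd_iff_le.2 hmd
  have h𝔪0 : 𝔪 ≠ ⊥ := by
    rintro rfl
    rw [Ideal.mul_bot] at h𝔪
    exact hmbot h𝔪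
  have h𝔪1 : 𝔪 ≠ ⊤ := by
    rintro rfl
    rw [Ideal.mul_top] at h𝔪
    apply hρ
    rw [← Ideal.mem_span_singleton, h𝔪]
    exact Ideal.mem_sup_left (Ideal.mem_span_singleton_self _)
  -- elements of the class
  have hsup : ∀ z : 𝓞 K, (m : 𝓞 K) ∣ z - ρ → Ideal.span {z} ⊔ Ideal.span {(m : 𝓞 K)} = 𝔡 := by
    rintro z ⟨t, ht⟩
    apply le_antisymm
    · refine sup_le ?_ hmd
      rw [Ideal.span_singleton_le_iff_mem]
      have e : z = ρ + (m : 𝓞 K) * t := by rw [← ht]; ring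
      rw [e]
      exact Ideal.add_mem _ (Ideal.mem_sup_left (Ideal.mem_span_singleton_self _))
        (Ideal.mem_sup_right (Ideal.mul_mem_right _ _ (Ideal.mem_span_singleton_self _)))
    · refine sup_le ?_ le_sup_right
      rw [Ideal.span_singleton_le_iff_mem]
      have e : ρ = z + (m : 𝓞 K) * (-t) := by linear_combination -ht
      rw [e]
      exact Ideal.add_mem _ (Ideal.mem_sup_left (Ideal.mem_span_singleton_self _))
        (Ideal.mem_sup_right (Ideal.mul_mem_right _ _ (Ideal.mem_span_singleton_self _)))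
  have hdvd : ∀ z : 𝓞 K, (m : 𝓞 K) ∣ z - ρ → 𝔡 ∣ Ideal.span {z} := by
    intro z hz
    rw [Ideal.dvd_iff_le, ← hsup z hz]
    exact le_sup_left
  have hcop : ∀ (z : 𝓞 K) (𝔟 : Ideal (𝓞 K)), (m : 𝓞 K) ∣ z - ρ → Ideal.span {z} = 𝔡 * 𝔟 →
      IsCoprime 𝔟 𝔪 := by
    intro z 𝔟 hz h
    rw [Ideal.isCoprime_iff_sup_eq]
    have h1 := hsup z hz
    rw [h, h𝔪, ← Ideal.mul_sup] at h1
    have h4 : 𝔡 * (𝔟 ⊔ 𝔪) = 𝔡 * ⊤ := by rw [h1, Ideal.mul_top]
    exact mul_left_cancel₀ h𝔡0 h4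
  -- the class function
  set Gc : Ideal (𝓞 K) → ℂ := fun 𝔟 => ((Aset 𝔡 m ρ 𝔟).ncard : ℂ) with hGc
  have hCF : CF 𝔪 Gc := by
    refine ⟨?_, ?_⟩
    · intro 𝔞 h𝔞
      have h0 : Aset 𝔡 m ρ 𝔞 = ∅ := by
        ext z
        simp only [Set.mem_empty_iff_false, iff_false]
        rintro ⟨h1, h4⟩
        exact h𝔞 (hcop z 𝔞 h4 h1)
      simp only [hGc, h0, Set.ncard_empty, Nat.cast_zero]
    · intro 𝔞 𝔟 x y _ _ hx hy hx1 hy1 h
      have e : (Aset 𝔡 m ρ 𝔞).ncard = (Aset 𝔡 m ρ 𝔟).ncard :=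
        le_antisymm (Aset_le h𝔪 hx hy hx1 hy1 h) (Aset_le h𝔪 hy hx hy1 hx1 h.symm)
      simp only [hGc, e]
  obtain ⟨n, η, a, hη, -, -, hFη, -⟩ := h3 K hfr 𝔪 h𝔪0 h𝔪1 Gc hCF
  -- the sums over the ideals
  set S : ℝ := ∑ i, ‖a i‖ + 1 with hS
  have hS0 : 0 < S := by
    have : 0 ≤ ∑ i, ‖a i‖ := Finset.sum_nonneg fun i _ => norm_nonneg _
    linarith
  have h4 : ∀ i, ∃ X₀ : ℝ, ∀ X : ℝ, X₀ ≤ X →
      ‖∑ 𝔞 ∈ IX K X, η i 𝔞 * F 𝔞‖ ≤ ε / S * X :=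
    fun i => h2 K hfr N F hCM hfar 𝔪 (η i) (hη i) (ε / S) (by positivity)
  choose Xi hXi using h4
  set D : ℝ := (Ideal.absNorm 𝔡 : ℝ) with hD
  have hD0' : Ideal.absNorm 𝔡 ≠ 0 := fun h => h𝔡0 (Ideal.absNorm_eq_zero_iff.1 h)
  have hD1 : 1 ≤ D := by
    rw [hD]
    exact_mod_cast Nat.one_le_iff_ne_zero.2 hD0'
  have hD0 : 0 < D := by linarith
  refine ⟨D * ∑ i, |Xi i|, fun X hX A hA => ?_⟩
  have hsumXi : 0 ≤ ∑ i, |Xi i| := Finset.sum_nonneg fun i _ => abs_nonneg _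
  have hX0 : 0 ≤ X := le_trans (mul_nonneg hD0.le hsumXi) hX
  have hY : ∀ i, Xi i ≤ X / D := by
    intro i
    rw [le_div_iff₀ hD0]
    have h5 : |Xi i| ≤ ∑ i, |Xi i| :=
      Finset.single_le_sum (f := fun i => |Xi i|) (fun i _ => abs_nonneg _) (Finset.mem_univ i)
    have h6 : Xi i ≤ ∑ i, |Xi i| := (le_abs_self _).trans h5
    calc Xi i * D ≤ (∑ i, |Xi i|) * D := mul_le_mul_of_nonneg_right h6 hD0.le
      _ = D * ∑ i, |Xi i| := mul_comm _ _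
      _ ≤ X := hX
  -- the rearrangement
  have hkey : ∑ z ∈ A, F (Ideal.span {z}) =
      F 𝔡 * ∑ 𝔟 ∈ IX K (X / D), Gc 𝔟 * F 𝔟 := by
    have hq : ∃ q : 𝓞 K → Ideal (𝓞 K), ∀ z ∈ A, Ideal.span {z} = 𝔡 * q z := by
      have : ∀ z : 𝓞 K, ∃ 𝔟 : Ideal (𝓞 K), z ∈ A → Ideal.span {z} = 𝔡 * 𝔟 := by
        intro z
        by_cases hz : z ∈ A
        · obtain ⟨𝔟, h𝔟⟩ := hdvd z ((hA z).1 hz).2
          exact ⟨𝔟, fun _ => h𝔟⟩
        · exact ⟨⊥, fun h => absurd h hz⟩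
      choose q hq using this
      exact ⟨q, hq⟩
    obtain ⟨q, hq⟩ := hq
    have hmaps : ∀ z ∈ A, q z ∈ IX K (X / D) := by
      intro z hz
      obtain ⟨h5, h6⟩ := mem_ZX.1 ((hA z).1 hz).1
      have h7 := hq z hz
      refine mem_IX.2 ⟨?_, ?_⟩
      · intro h8
        rw [h8, Ideal.mul_bot, Ideal.span_singleton_eq_bot] at h7
        exact h5 h7
      · rw [h7, map_mul] at h6
        rw [le_div_iff₀ hD0]
        push_cast at h6
        linarith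
    rw [← Finset.sum_fiberwise_of_maps_to hmaps, Finset.mul_sum]
    refine Finset.sum_congr rfl fun 𝔟 h𝔟 => ?_
    obtain ⟨h𝔟0, h𝔟1⟩ := mem_IX.1 h𝔟
    have hN𝔟 : Ideal.absNorm 𝔟 ≠ 0 := fun h => h𝔟0 (Ideal.absNorm_eq_zero_iff.1 h)
    have hset : ((A.filter fun z => q z = 𝔟 : Finset (𝓞 K)) : Set (𝓞 K)) = Aset 𝔡 m ρ 𝔟 := by
      ext z
      rw [Finset.mem_coe, Finset.mem_filter]
      constructor
      · rintro ⟨h5, rfl⟩
        exact ⟨hq z h5, ((hA z).1 h5).2⟩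
      · rintro ⟨h5, h6⟩
        have hzA : z ∈ A := by
          refine (hA z).2 ⟨mem_ZX.2 ⟨?_, ?_⟩, h6⟩
          · rintro rfl
            rw [Ideal.span_singleton_eq_bot.2 rfl] at h5
            exact (mul_ne_zero h𝔡0 h𝔟0) h5.symm
          · rw [h5, map_mul]
            rw [le_div_iff₀ hD0] at h𝔟1
            push_cast
            linarith
        refine ⟨hzA, ?_⟩
        have h7 := hq z hzA
        rw [h5] at h7
        exact (mul_left_cancel₀ h𝔡0 h7).symm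
    have hcard : (Aset 𝔡 m ρ 𝔟).ncard = (A.filter fun z => q z = 𝔟).card := by
      rw [← hset, Set.ncard_coe_finset]
    have hterm : ∀ z ∈ A.filter fun z => q z = 𝔟,
        F (Ideal.span {z}) = F 𝔡 * F 𝔟 := by
      intro z hz
      obtain ⟨h5, h6⟩ := Finset.mem_filter.1 hz
      rw [hq z h5, h6, hCM.mul _ _ h𝔡0 h𝔟0]
    rw [Finset.sum_congr rfl hterm, Finset.sum_const, nsmul_eq_mul]
    simp only [hGc, hcard]
    ring
  rw [hkey, norm_mul, cmi_norm hCM h𝔡0, one_mul]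
  have h5 : ∑ 𝔟 ∈ IX K (X / D), Gc 𝔟 * F 𝔟 =
      ∑ i, a i * ∑ 𝔟 ∈ IX K (X / D), η i 𝔟 * F 𝔟 := by
    simp_rw [Finset.mul_sum]
    rw [Finset.sum_comm]
    refine Finset.sum_congr rfl fun 𝔟 _ => ?_
    rw [hFη 𝔟, Finset.sum_mul]
    refine Finset.sum_congr rfl fun i _ => ?_
    ring
  rw [h5]
  calc ‖∑ i, a i * ∑ 𝔟 ∈ IX K (X / D), η i 𝔟 * F 𝔟‖
      ≤ ∑ i, ‖a i * ∑ 𝔟 ∈ IX K (X / D), η i 𝔟 * F 𝔟‖ := norm_sum_le _ _
    _ ≤ ∑ i, ‖a i‖ * (ε / S * (X / D)) := by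
        refine Finset.sum_le_sum fun i _ => ?_
        rw [norm_mul]
        exact mul_le_mul_of_nonneg_left (hXi i (X / D) (hY i)) (norm_nonneg _)
    _ = (∑ i, ‖a i‖) * (ε / S * (X / D)) := by rw [Finset.sum_mul]
    _ ≤ S * (ε / S * (X / D)) :=
        mul_le_mul_of_nonneg_right (by rw [hS]; linarith) (by positivity)
    _ = ε * (X / D) := by field_simp
    _ ≤ ε * X := mul_le_mul_of_nonneg_left (div_le_self hX0 hD1) hε.le

end

/-! ### All classes -/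

theorem hd (h2 : S_HM) (h3 : Pool.Agent.N912.RC.S_RC3) : S_HD := by
  classical
  intro K _ _ _ hfr N F hCM hfar m ρ hm ε hε
  have hU : Finite (𝓞 K)ˣ := finite_units hfr
  obtain ⟨C, Y1, hC, hCY⟩ := IX_bound K
  set w : ℝ := (Nat.card (𝓞 K)ˣ : ℝ) with hw
  have hw0 : 0 ≤ w := Nat.cast_nonneg _
  obtain ⟨L, hL⟩ := exists_nat_gt (2 * w * C / ε)
  have hL0 : 0 < (L : ℝ) := lt_of_le_of_lt (by positivity) hL
  have hL1 : 1 ≤ L := by exact_mod_cast Nat.one_le_iff_ne_zero.2 (by rintro rfl; simp at hL0)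
  have hL1' : (1 : ℝ) ≤ L := by exact_mod_cast hL1
  have hm1' : (1 : ℝ) ≤ m := by exact_mod_cast hm
  set M : ℕ := m * L with hM
  have hM1 : 1 ≤ M := Nat.one_le_iff_ne_zero.2 (Nat.mul_ne_zero (by omega) (by omega))
  have hM0 : (M : 𝓞 K) ≠ 0 := by exact_mod_cast (by omega : M ≠ 0)
  have hM1' : (1 : ℝ) ≤ M := by exact_mod_cast hM1
  have hmM : (m : 𝓞 K) ∣ (M : 𝓞 K) := ⟨(L : 𝓞 K), by rw [hM]; push_cast; ring⟩
  set I : Ideal (𝓞 K) := Ideal.span {(M : 𝓞 K)} with hI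
  have hI0 : I ≠ ⊥ := by
    rw [hI, Ne, Ideal.span_singleton_eq_bot]; exact hM0
  have hfinQ : Finite (𝓞 K ⧸ I) := Ideal.finiteQuotientOfFreeOfNeBot I hI0
  letI : Fintype (𝓞 K ⧸ I) := Fintype.ofFinite _
  have hmk : ∀ z ρ' : 𝓞 K, Ideal.Quotient.mk I z = Ideal.Quotient.mk I ρ' ↔ (M : 𝓞 K) ∣ z - ρ' := by
    intro z ρ'
    rw [Ideal.Quotient.eq, hI, Ideal.mem_span_singleton]
  have hrep : ∀ q : 𝓞 K ⧸ I, ∃ r : 𝓞 K, Ideal.Quotient.mk I r = q :=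
    fun q => Ideal.Quotient.mk_surjective q
  choose r hr using hrep
  set Qn : ℝ := (Fintype.card (𝓞 K ⧸ I) : ℝ) with hQn
  have hQn0 : 0 ≤ Qn := Nat.cast_nonneg _
  set ε' : ℝ := ε / (2 * (Qn + 1)) with hε'
  have hε'0 : 0 < ε' := by positivity
  -- the classes which are not zero
  have h4 : ∀ q : 𝓞 K ⧸ I, ∃ X₀ : ℝ, q ≠ 0 → ∀ X ≥ X₀, ∀ A : Finset (𝓞 K),
      (∀ z, z ∈ A ↔ z ∈ ZX K X ∧ (M : 𝓞 K) ∣ z - r q) →
      ‖∑ z ∈ A, F (Ideal.span {z})‖ ≤ ε' * X := by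
    intro q
    by_cases hq : q = 0
    · exact ⟨0, fun h => absurd hq h⟩
    · have hρ : ¬ (M : 𝓞 K) ∣ r q := by
        intro h
        apply hq
        rw [← hr q, ← map_zero (Ideal.Quotient.mk I), hmk, sub_zero]
        exact h
      obtain ⟨X₀, hX₀⟩ := main_b h2 h3 hfr hCM hfar hM1 hρ ε' hε'0
      exact ⟨X₀, fun _ => hX₀⟩
  choose Xq hXq using h4
  refine ⟨∑ q, |Xq q| + (M : ℝ) ^ 2 * |Y1|, fun X hX => ?_⟩
  have hs0 : 0 ≤ ∑ q, |Xq q| := Finset.sum_nonneg fun q _ => abs_nonneg _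
  have hs1 : 0 ≤ (M : ℝ) ^ 2 * |Y1| := by positivity
  have hX0 : 0 ≤ X := by linarith
  have hXqX : ∀ q, Xq q ≤ X := by
    intro q
    have h5 : |Xq q| ≤ ∑ q, |Xq q| :=
      Finset.single_le_sum (f := fun q => |Xq q|) (fun i _ => abs_nonneg _) (Finset.mem_univ q)
    linarith [le_abs_self (Xq q)]
  have hY1X : Y1 ≤ X / (M : ℝ) ^ 2 := by
    rw [le_div_iff₀ (by positivity)]
    have : Y1 * (M : ℝ) ^ 2 ≤ |Y1| * (M : ℝ) ^ 2 :=
      mul_le_mul_of_nonneg_right (le_abs_self _) (by positivity)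
    linarith
  -- the finite sum
  set A : Finset (𝓞 K) := (ZX K X).filter fun z => (m : 𝓞 K) ∣ z - ρ with hA
  have hset : {z : 𝓞 K | z ≠ 0 ∧ (Ideal.absNorm (Ideal.span {z}) : ℝ) ≤ X ∧ (m : 𝓞 K) ∣ z - ρ} =
      (A : Set (𝓞 K)) := by
    ext z
    rw [Finset.mem_coe, hA, Finset.mem_filter, mem_ZX, and_assoc]
    rfl
  have hfs : (∑ᶠ z ∈ {z : 𝓞 K | z ≠ 0 ∧ (Ideal.absNorm (Ideal.span {z}) : ℝ) ≤ X ∧
      (m : 𝓞 K) ∣ z - ρ}, F (Ideal.span {z})) =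
      ∑ z ∈ A, F (Ideal.span {z}) := by
    rw [hset, finsum_mem_coe_finset]
  rw [hfs, ← Finset.sum_fiberwise A (Ideal.Quotient.mk I)]
  refine (norm_sum_le _ _).trans ?_
  -- each class
  have h5 : ∀ q : 𝓞 K ⧸ I, q ≠ 0 →
      ‖∑ z ∈ A.filter fun z => Ideal.Quotient.mk I z = q, F (Ideal.span {z})‖ ≤
        ε' * X := by
    intro q hq
    by_cases hc : (m : 𝓞 K) ∣ r q - ρ
    · refine hXq q hq X (hXqX q) _ fun z => ?_
      rw [Finset.mem_filter, hA, Finset.mem_filter, and_assoc]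
      refine and_congr_right fun _ => ?_
      have h6 : Ideal.Quotient.mk I z = q ↔ (M : 𝓞 K) ∣ z - r q := by
        rw [← hmk, hr]
      rw [h6]
      refine ⟨fun h => h.2, fun h => ⟨?_, h⟩⟩
      have e : z - ρ = (z - r q) + (r q - ρ) := by ring
      rw [e]
      exact dvd_add (hmM.trans h) hc
    · have h6 : (A.filter fun z => Ideal.Quotient.mk I z = q) = ∅ := by
        rw [Finset.filter_eq_empty_iff]
        intro z hz h7
        apply hc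
        have h8 : (M : 𝓞 K) ∣ z - r q := by rw [← hmk, hr]; exact h7
        have h9 := (Finset.mem_filter.1 hz).2
        have e : r q - ρ = (z - ρ) - (z - r q) := by ring
        rw [e]
        exact dvd_sub h9 (hmM.trans h8)
      rw [h6, Finset.sum_empty, norm_zero]
      positivity
  -- the class of zero
  have h6 : ‖∑ z ∈ A.filter fun z => Ideal.Quotient.mk I z = 0,
      F (Ideal.span {z})‖ ≤ ε / 2 * X := by
    refine (norm_sum_le _ _).trans ?_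
    have h66 : ∀ z ∈ A.filter fun z => Ideal.Quotient.mk I z = 0, ‖F (Ideal.span {z})‖ = 1 := by
      intro z hz
      have hz0 := (mem_ZX.1 (Finset.mem_filter.1 (Finset.mem_filter.1 hz).1).1).1
      exact cmi_norm hCM (by rw [Ne, Ideal.span_singleton_eq_bot]; exact hz0)
    rw [Finset.sum_congr rfl h66, Finset.sum_const, nsmul_eq_mul, mul_one]
    have h7 : (A.filter fun z => Ideal.Quotient.mk I z = 0).card ≤ (ZX K (X / (M : ℝ) ^ 2)).card := by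
      have h8 : ∀ z ∈ (A.filter fun z => Ideal.Quotient.mk I z = 0),
          ∃ u ∈ ZX K (X / (M : ℝ) ^ 2), z = (M : 𝓞 K) * u := by
        intro z hz
        obtain ⟨h9, h10⟩ := Finset.mem_filter.1 hz
        rw [← map_zero (Ideal.Quotient.mk I), hmk, sub_zero] at h10
        obtain ⟨u, rfl⟩ := h10
        obtain ⟨h11, h12⟩ := mem_ZX.1 (Finset.mem_filter.1 h9).1
        refine ⟨u, mem_ZX.2 ⟨right_ne_zero_of_mul h11, ?_⟩, rfl⟩
        rw [← Ideal.span_singleton_mul_span_singleton, map_mul, Ideal.absNorm_span_natCast,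
          RingOfIntegers.rank, hfr] at h12
        push_cast at h12
        rw [le_div_iff₀ (by positivity)]
        linarith
      choose! u hu1 hu2 using h8
      refine Finset.card_le_card_of_injOn u hu1 ?_
      intro z1 hz1 z2 hz2 he
      rw [hu2 z1 hz1, hu2 z2 hz2, he]
    have h8 : ((ZX K (X / (M : ℝ) ^ 2)).card : ℝ) ≤ w * (C * (X / (M : ℝ) ^ 2)) := by
      have h9 : ((ZX K (X / (M : ℝ) ^ 2)).card : ℝ) ≤ w * ((IX K (X / (M : ℝ) ^ 2)).card : ℝ) := by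
        have h11 := card_Z_le (K := K) (X / (M : ℝ) ^ 2)
        rw [hw, ← Nat.cast_mul]
        exact Nat.cast_le.2 h11
      exact h9.trans (mul_le_mul_of_nonneg_left (hCY _ hY1X) hw0)
    have h9 : w * (C * (X / (M : ℝ) ^ 2)) ≤ ε / 2 * X := by
      have h10 : w * C ≤ ε / 2 * (M : ℝ) ^ 2 := by
        rw [div_lt_iff₀ hε] at hL
        have hLM : (L : ℝ) ≤ (M : ℝ) ^ 2 := by
          have h11 : (L : ℝ) ≤ M := by
            rw [hM]
            push_cast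
            nlinarith
          nlinarith
        nlinarith
      calc w * (C * (X / (M : ℝ) ^ 2)) = (w * C) * X / (M : ℝ) ^ 2 := by ring
        _ ≤ (ε / 2 * (M : ℝ) ^ 2) * X / (M : ℝ) ^ 2 := by gcongr
        _ = ε / 2 * X := by field_simp
    have h10 : ((A.filter fun z => Ideal.Quotient.mk I z = 0).card : ℝ) ≤
        ((ZX K (X / (M : ℝ) ^ 2)).card : ℝ) := Nat.cast_le.2 h7
    exact h10.trans (h8.trans h9)
  rw [← Finset.add_sum_erase _ _ (Finset.mem_univ (0 : 𝓞 K ⧸ I))]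
  have h7 : ∑ q ∈ Finset.univ.erase (0 : 𝓞 K ⧸ I),
      ‖∑ z ∈ A.filter fun z => Ideal.Quotient.mk I z = q, F (Ideal.span {z})‖ ≤
      Qn * (ε' * X) := by
    calc _ ≤ ∑ q ∈ Finset.univ.erase (0 : 𝓞 K ⧸ I), ε' * X :=
          Finset.sum_le_sum fun q hq => h5 q (Finset.ne_of_mem_erase hq)
      _ ≤ ∑ q : 𝓞 K ⧸ I, ε' * X :=
          Finset.sum_le_sum_of_subset_of_nonneg (Finset.erase_subset _ _) fun _ _ _ => by positivity
      _ = Qn * (ε' * X) := by rw [Finset.sum_const, Finset.card_univ, nsmul_eq_mul]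
  have h8 : Qn * (ε' * X) ≤ ε / 2 * X := by
    have h9 : Qn * ε' ≤ ε / 2 := by
      rw [hε', ← mul_div_assoc, div_le_iff₀ (by positivity)]
      nlinarith
    calc Qn * (ε' * X) = (Qn * ε') * X := by ring
      _ ≤ ε / 2 * X := mul_le_mul_of_nonneg_right h9 hX0
  calc _ ≤ ε / 2 * X + Qn * (ε' * X) := add_le_add h6 h7
    _ ≤ ε / 2 * X + ε / 2 * X := by linarith
    _ = ε * X := by ring

end Pool.Agent.N527.LB
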